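import Pool.Agent.W97.MT.Fin

/-!
# The Mazur-Tate relation at a split multiplicative prime fails for `X_0(14)` at `p = 7`

For the optimal curve `E = X_0(14)`, `y² + xy + y = x³ + 4x - 6`, and `p = 7` one has
`ord_7(q_E) = 3` and `q̃_E = -1`; the left side of the relation is `1` and the right side is
`(-1)^([0/7]) = -1`.
-/

set_option autoImplicit false

open UpperHalfPlane MatrixGroups CongruenceSubgroup Filter Topology

namespace Pool.Agent.Results.MP_9c45e8_nt.MazurTateFails

open Pool.Agent.W97.MT

/-- **Negated form of Q1.** -/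
theorem result :
    -- all the data of the problem for `p = 7`, `N = 14`, `E : y² + xy + y = x³ + 4x - 6`, with the
    -- newform `η(z)η(2z)η(7z)η(14z)`, for which the relation fails
    (∃ X : Datum 7 14 E14, (∀ z : ℍ, X.f z = ModularForm.eta z * ModularForm.eta (2 * z) *
      ModularForm.eta (7 * z) * ModularForm.eta (14 * z)) ∧ ¬ Relation X) ∧
    -- so the conjecture is false
    ¬ MazurTateConjecture := by
  have main : ∃ X : Datum 7 14 E14, (∀ z : ℍ, X.f z = ModularForm.eta z * ModularForm.eta (2 * z) *
      ModularForm.eta (7 * z) * ModularForm.eta (14 * z)) ∧ ¬ Relation X := by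
    obtain ⟨L, Op, Om, hOp, hOm, g2, g3, hL⟩ := hlat
    obtain ⟨Ξ, U, P, rΞ, rU, rP, tΞ, tU, tP⟩ := expansions hqe
    obtain ⟨h0, i2, i3, i6, iint, ij, i7⟩ := integrals hcp hqe hode L g2 g3 hinj htors
    obtain ⟨min1, c4, c6, disc, m2, m3, m7, mb⟩ := hmin
    obtain ⟨u, hu, htu⟩ := htate
    have hP0 : PowerSeries.coeff 0 P = 1 := by
      rw [tP 0 (by norm_num)]; rfl
    have hcoef : ∀ l : Nat.Primes, (qExpansion 1 form14).coeff l = ap E14 l := by
      intro l
      have h1 := coeff_f14 hcp hqe rP (l : ℕ)
      have h2 := coef_eq L g2 g3 rΞ rU rP tΞ tU tP l.2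
      obtain ⟨m, hm⟩ : ∃ m, (l : ℕ) = m + 1 := ⟨l - 1, by have := l.2.pos; omega⟩
      rw [hm] at h2
      rw [Nat.add_sub_cancel] at h2
      change (qExpansion 1 (f14 hcp hqe)).coeff (l : ℕ) = _
      rw [h1, hm, PowerSeries.coeff_succ_X_mul, h2]
    have h7 : II 0 = ∑ b ∈ Finset.range 7, II ((b : ℚ) / 7) := by
      have h1 := hhint 14 7 form14 (1 : ℂ) (by norm_num) (int_rat L g2 g3) (fun z => by
        have h2 := hecke_f14 hcp hqe rP hP0 (p := 7) (by norm_num) z
        rw [tP (7 - 1) (by norm_num)] at h2
        have h3 : lphi.getD (7 - 1) 0 = 1 := rfl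
        rw [h3, Int.cast_one] at h2
        exact h2) 0
      rw [if_pos (by norm_num : (7 : ℕ) ∣ 14), one_mul, zero_add, prim_rat] at h1
      rw [h1]
      refine Finset.sum_congr rfl fun b _ => ?_
      rw [prim_rat]
      congr 1
      push_cast
      ring
    obtain ⟨s, hleast, hsymb, hne⟩ := harith II Op Om L.lattice hOp hOm hL II_zero_im i6 i2 i3
      ij II_conj II_add_one h7
    refine ⟨{
      f := form14
      L := L
      Op := Op
      Om := Om
      c := 1
      D := 3
      s := s
      n := 3
      u := u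
      minimal := min1
      mult := by rw [disc, c4]; norm_num
      split := by unfold ap; rw [m7]; rfl
      newform := ?_
      coeff := hcoef
      g2 := by rw [g2, c4]; norm_num
      g3 := by rw [g3, c6]; norm_num
      c_ne := one_ne_zero
      optimal := ?_
      Op_pos := hOp
      Om_pos := hOm
      type := Or.inr hL
      least := ?_
      symb := ?_
      n_pos := by norm_num
      tate := ?_ }, fun z => rfl, ?_⟩
    · refine ⟨?_, fun p => ⟨_, fun z => hecke_f14 hcp hqe rP hP0 p.2 z⟩, ?_⟩
      · have h1 := coeff_f14 hcp hqe rP 1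
        change (qExpansion 1 (f14 hcp hqe)).coeff 1 = 1
        rw [h1, show (1 : ℕ) = 0 + 1 by rfl, PowerSeries.coeff_succ_X_mul, hP0]
        norm_num
      · intro M hM hM' g _ z
        refine hold e14 (fun g => dim_one g hcp hqe) ?_ M hM hM' g z
        have h1 : Tendsto (fun z : ℍ => phi (qq (z : ℂ))) atImInfty (𝓝 1) := by
          refine QV_phi.tendsto.comp ?_
          unfold iI
          rw [tendsto_comap_iff]
          exact tendsto_comap
        refine h1.congr fun z => ?_
        unfold e14
        rw [ff_q]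
        have := qq_ne (z : ℂ)
        unfold qq at this ⊢
        field_simp
    · intro w
      rw [optimal hcp hqe hode L g2 g3 hinj hsub w]
      constructor
      · intro h
        exact ⟨w, (isPeriod_iff w).2 h, by push_cast; ring⟩
      · rintro ⟨w', h, rfl⟩
        push_cast
        rw [one_mul]
        exact (isPeriod_iff w').1 h
    · have e : {D : ℕ | 0 < D ∧ ∀ r : ℚ, ∃ a b : ℤ,
          (D : ℂ) * prim form14 ((-r : ℚ) : ℂ) = a * Op + b * Om * Complex.I} =
          {D : ℕ | 0 < D ∧ ∀ r : ℚ, ∃ a b : ℤ,
          (D : ℂ) * II (-r) = a * Op + b * Om * Complex.I} := by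
        simp only [prim_rat]
      rw [e]
      exact hleast
    · intro r
      rw [prim_rat]
      exact_mod_cast hsymb r
    · exact_mod_cast htu
    · unfold Relation
      simp only
      have e1 : (0 : ℚ) / ((7 : ℕ) : ℚ) = 0 := by norm_num
      rw [e1, hu]
      exact_mod_cast hne
  obtain ⟨X, hX, hne⟩ := main
  exact ⟨⟨X, hX, hne⟩, fun h => hne (h 7 14 E14 X)⟩

end Pool.Agent.Results.MP_9c45e8_nt.MazurTateFails
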